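import Mathlib

/-!
# The projection onto a Lie algebra with nondegenerate trace form, and ideals
-/

set_option autoImplicit false
set_option linter.unusedSectionVars false

namespace Pool.Agent.R913.Adj

open Module

universe u v w

section proj

variable {K : Type u} [Field K] {V : Type v} [AddCommGroup V] [Module K V] [FiniteDimensional K V]

/-- `P` is the orthogonal projection onto `L` with respect to the trace form. -/
structure IsProj (L : Submodule K (End K V)) (P : End K V →ₗ[K] End K V) : Prop where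
  mem : ∀ A, P A ∈ L
  fix : ∀ A ∈ L, P A = A
  tr : ∀ A, ∀ W ∈ L, LinearMap.trace K V (P A * W) = LinearMap.trace K V (A * W)

/-- The existence of the orthogonal projection. -/
theorem exists_proj {L : Submodule K (End K V)}
    (hnd : ∀ X ∈ L, (∀ Y ∈ L, LinearMap.trace K V (X * Y) = 0) → X = 0) :
    ∃ P : End K V →ₗ[K] End K V, IsProj L P := by
  let B : End K V →ₗ[K] Dual K L :=
    { toFun := fun A => (LinearMap.trace K V) ∘ₗ (LinearMap.mulLeft K A) ∘ₗ L.subtype
      map_add' := fun A A' => by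
        ext W
        simp [add_mul]
      map_smul' := fun c A => by
        ext W
        simp }
  have hB : ∀ A (W : L), B A W = LinearMap.trace K V (A * W) := fun A W => rfl
  have hinj : Function.Injective (B ∘ₗ L.subtype) := by
    rw [injective_iff_map_eq_zero]
    intro X hX
    apply Subtype.ext
    refine hnd X.1 X.2 fun Y hY => ?_
    exact LinearMap.congr_fun hX ⟨Y, hY⟩
  let e : L ≃ₗ[K] Dual K L := LinearMap.linearEquivOfInjective (B ∘ₗ L.subtype) hinj
    (Subspace.dual_finrank_eq).symm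
  have he : ∀ X : L, e X = B X.1 := fun X => rfl
  refine ⟨L.subtype ∘ₗ e.symm.toLinearMap ∘ₗ B, fun A => (e.symm (B A)).2, fun A hA => ?_, ?_⟩
  · have h1 : e.symm (B A) = ⟨A, hA⟩ := by
      rw [LinearEquiv.symm_apply_eq, he]
    change ((e.symm (B A) : L) : End K V) = A
    rw [h1]
  · intro A W hW
    change LinearMap.trace K V (((e.symm (B A) : L) : End K V) * W) = _
    have h1 : e (e.symm (B A)) = B A := e.apply_symm_apply _
    rw [he] at h1
    exact LinearMap.congr_fun h1 ⟨W, hW⟩

/-- Two elements with the same traces are equal. -/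
theorem eq_of_traces {L : Submodule K (End K V)}
    (hnd : ∀ X ∈ L, (∀ Y ∈ L, LinearMap.trace K V (X * Y) = 0) → X = 0) {X Y : End K V}
    (hX : X ∈ L) (hY : Y ∈ L)
    (h : ∀ W ∈ L, LinearMap.trace K V (X * W) = LinearMap.trace K V (Y * W)) : X = Y := by
  rw [← sub_eq_zero]
  refine hnd _ (L.sub_mem hX hY) fun W hW => ?_
  rw [sub_mul, map_sub, h W hW, sub_self]

/-- The projection commutes with the conjugations which stabilize the Lie algebra. -/
theorem IsProj.conj {L : Submodule K (End K V)}
    (hnd : ∀ X ∈ L, (∀ Y ∈ L, LinearMap.trace K V (X * Y) = 0) → X = 0)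
    {P : End K V →ₗ[K] End K V} (hP : IsProj L P) {g g' : End K V}
    (h : ∀ X ∈ L, g * (X * g') ∈ L) (h' : ∀ X ∈ L, g' * (X * g) ∈ L) (A : End K V) :
    P (g * (A * g')) = g * (P A * g') := by
  refine eq_of_traces hnd (hP.mem _) (h _ (hP.mem A)) fun W hW => ?_
  rw [hP.tr _ W hW]
  have h2 : ∀ C : End K V, LinearMap.trace K V (g * (C * g') * W) =
      LinearMap.trace K V (C * (g' * (W * g))) := by
    intro C
    rw [mul_assoc, LinearMap.trace_mul_comm]
    simp only [mul_assoc]
  rw [h2, h2, hP.tr A _ (h' W hW)]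

/-- If `L` is an ideal of `G`, an element of `G` is the sum of an element of `L` and an element of
`G` which commutes with `L`. -/
theorem IsProj.split {L G : Submodule K (End K V)}
    (hnd : ∀ X ∈ L, (∀ Y ∈ L, LinearMap.trace K V (X * Y) = 0) → X = 0) (hLG : L ≤ G)
    (hid : ∀ X ∈ G, ∀ Y ∈ L, X * Y - Y * X ∈ L)
    {P : End K V →ₗ[K] End K V} (hP : IsProj L P) {X : End K V} (hX : X ∈ G) :
    ∃ Y ∈ L, ∃ Z ∈ G, X = Y + Z ∧ ∀ W ∈ L, Z * W = W * Z := by
  have hZ : X - P X ∈ G := G.sub_mem hX (hLG (hP.mem X))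
  refine ⟨P X, hP.mem X, X - P X, hZ, (add_sub_cancel (P X) X).symm, fun W hW => ?_⟩
  rw [← sub_eq_zero]
  refine hnd _ (hid _ hZ W hW) fun Y hY => ?_
  have h1 : LinearMap.trace K V (((X - P X) * W - W * (X - P X)) * Y) =
      LinearMap.trace K V ((X - P X) * (W * Y - Y * W)) := by
    obtain ⟨T, hT⟩ : ∃ T, T = X - P X := ⟨_, rfl⟩
    rw [← hT, sub_mul, mul_sub, map_sub, map_sub, mul_assoc, mul_assoc W, ← mul_assoc T Y W,
      LinearMap.trace_mul_comm K W]
  rw [h1, sub_mul, map_sub, hP.tr X _ (hid W (hLG hW) Y hY), sub_self]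

end proj

section blocks

variable {K : Type u} [Field K] {ι : Type w} [DecidableEq ι] {V : ι → Type v}
  [∀ i, AddCommGroup (V i)] [∀ i, Module K (V i)]

/-- The diagonal block. -/
def bl (i : ι) : End K (∀ i, V i) →ₗ[K] End K (V i) where
  toFun X := LinearMap.proj i ∘ₗ X ∘ₗ LinearMap.single K V i
  map_add' X Y := by
    ext x
    simp
  map_smul' c X := by
    ext x
    simp

theorem bl_apply (i : ι) (X : End K (∀ i, V i)) (x : V i) : bl i X x = X (Pi.single i x) i := rfl

/-- An endomorphism of a summand, extended by zero. -/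
def em (i : ι) : End K (V i) →ₗ[K] End K (∀ i, V i) where
  toFun A := LinearMap.single K V i ∘ₗ A ∘ₗ LinearMap.proj i
  map_add' X Y := by
    refine LinearMap.ext fun x => ?_
    change Pi.single i ((X + Y) (x i)) = Pi.single i (X (x i)) + Pi.single i (Y (x i))
    rw [LinearMap.add_apply, Pi.single_add]
  map_smul' c X := by
    refine LinearMap.ext fun x => ?_
    change Pi.single i ((c • X) (x i)) = c • (Pi.single i (X (x i)) : ∀ i, V i)
    rw [LinearMap.smul_apply, ← Pi.single_smul]

theorem em_apply (i : ι) (A : End K (V i)) (x : ∀ i, V i) :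
    em i A x = Pi.single i (A (x i)) := rfl

/-- The endomorphism respects the direct sum. -/
def Diag (X : End K (∀ i, V i)) : Prop := ∀ x i, X x i = X (Pi.single i (x i)) i

theorem Diag.apply {X : End K (∀ i, V i)} (h : Diag X) (x : ∀ i, V i) (i : ι) :
    X x i = bl i X (x i) := h x i

theorem Diag.mul {X Y : End K (∀ i, V i)} (hX : Diag X) (hY : Diag Y) : Diag (X * Y) := by
  intro x i
  rw [Module.End.mul_apply, Module.End.mul_apply, hX.apply, hX.apply, hY.apply, hY.apply,
    Pi.single_eq_same]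

theorem Diag.sub {X Y : End K (∀ i, V i)} (hX : Diag X) (hY : Diag Y) : Diag (X - Y) := by
  intro x i
  rw [LinearMap.sub_apply, LinearMap.sub_apply, Pi.sub_apply, Pi.sub_apply, hX x i, hY x i]

theorem bl_mul {X Y : End K (∀ i, V i)} (hX : Diag X) (i : ι) :
    bl i (X * Y) = bl i X * bl i Y := by
  refine LinearMap.ext fun x => ?_
  rw [bl_apply, Module.End.mul_apply, Module.End.mul_apply, hX.apply, bl_apply (X := Y)]

theorem Diag.ext {X Y : End K (∀ i, V i)} (hX : Diag X) (hY : Diag Y)
    (h : ∀ i, bl i X = bl i Y) : X = Y := by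
  refine LinearMap.ext fun x => funext fun i => ?_
  rw [hX.apply, hY.apply, h i]

theorem Diag.sum [Fintype ι] {X : End K (∀ i, V i)} (hX : Diag X) :
    X = ∑ i, em i (bl i X) := by
  refine LinearMap.ext fun x => funext fun j => ?_
  rw [LinearMap.sum_apply, Finset.sum_apply, Finset.sum_eq_single j]
  · rw [em_apply, Pi.single_eq_same, hX.apply]
  · intro i _ hij
    rw [em_apply, Pi.single_eq_of_ne (Ne.symm hij)]
  · intro h
    exact absurd (Finset.mem_univ j) h

theorem em_diag (i : ι) (A : End K (V i)) : Diag (em i A) := by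
  intro x j
  rw [em_apply, em_apply]
  by_cases h : j = i
  · subst h
    rw [Pi.single_eq_same, Pi.single_eq_same, Pi.single_eq_same]
  · rw [Pi.single_eq_of_ne h, Pi.single_eq_of_ne h]

theorem bl_em_same (i : ι) (A : End K (V i)) : bl i (em i A) = A := by
  refine LinearMap.ext fun x => ?_
  rw [bl_apply, em_apply, Pi.single_eq_same, Pi.single_eq_same]

variable [Fintype ι] [∀ i, FiniteDimensional K (V i)]

/-- If the components `End (V i) → End (V j)` of the projection commute with the adjoint action of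
`G` then `L` is an ideal of `G`. -/
theorem IsProj.ideal {L G : Submodule K (End K (∀ i, V i))} (hLG : L ≤ G)
    (hd : ∀ X ∈ G, Diag X) {P : End K (∀ i, V i) →ₗ[K] End K (∀ i, V i)} (hP : IsProj L P)
    (hT : ∀ i j, ∀ X ∈ G, ∀ A : End K (V i), bl j (P (em i (bl i X * A - A * bl i X))) =
      bl j X * bl j (P (em i A)) - bl j (P (em i A)) * bl j X) :
    ∀ X ∈ G, ∀ Y ∈ L, X * Y - Y * X ∈ L := by
  intro X hX Y hY
  have hXd := hd X hX
  have hYd := hd Y (hLG hY)
  have hcd : Diag (X * Y - Y * X) := (hXd.mul hYd).sub (hYd.mul hXd)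
  have h1 : ∀ B : End K (∀ i, V i), Diag B → ∀ j, bl j (P B) = ∑ i, bl j (P (em i (bl i B))) := by
    intro B hB j
    conv_lhs => rw [hB.sum]
    rw [map_sum, map_sum]
  have h2 : X * Y - Y * X = P (X * Y - Y * X) := by
    refine hcd.ext (hd _ (hLG (hP.mem _))) fun j => ?_
    rw [h1 _ hcd j, map_sub, bl_mul hXd, bl_mul hYd]
    have h3 : bl j Y = ∑ i, bl j (P (em i (bl i Y))) := by
      rw [← h1 Y hYd j, hP.fix Y hY]
    rw [h3, Finset.mul_sum, Finset.sum_mul, ← Finset.sum_sub_distrib]
    refine Finset.sum_congr rfl fun i _ => ?_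
    rw [map_sub (bl i), bl_mul hXd, bl_mul hYd, hT i j X hX]
  rw [h2]
  exact hP.mem _

end blocks

end Pool.Agent.R913.Adj
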