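import Mathlib
import Pool.Agent.Y114.RM.Defs

/-!
# The tensor in four variables attached to a linear map between spaces of endomorphisms
-/

set_option autoImplicit false
set_option linter.unusedSectionVars false

namespace Pool.Agent.R913.Adj

open Module Pool.Agent.Y114.RM Pool.Agent.Y114.TF

variable {k : Type} [Field k] {V : Type} [AddCommGroup V] [Module k V]

/-- the tensor in four variables attached to a linear map of endomorphism spaces -/
noncomputable def four (T : End k V →ₗ[k] End k V) :
    MultilinearMap k (fun _ : Fin 4 => V × Dual k V) k where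
  toFun v := (v 3).2 (T ((v 1).2.smulRight (v 0).1) (v 2).1)
  map_update_add' := by
    intro inst v l x y
    have hi : inst = instDecidableEqFin 4 := Subsingleton.elim _ _
    subst hi
    have h01 : (0 : Fin 4) ≠ 1 := by decide
    have h02 : (0 : Fin 4) ≠ 2 := by decide
    have h03 : (0 : Fin 4) ≠ 3 := by decide
    have h12 : (1 : Fin 4) ≠ 2 := by decide
    have h13 : (1 : Fin 4) ≠ 3 := by decide
    have h23 : (2 : Fin 4) ≠ 3 := by decide
    have e1 : ∀ (ξ : Dual k V) (a b : V), ξ.smulRight (a + b) = ξ.smulRight a + ξ.smulRight b := by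
      intro ξ a b; ext u; simp
    have e2 : ∀ (ξ η : Dual k V) (a : V), (ξ + η).smulRight a = ξ.smulRight a + η.smulRight a := by
      intro ξ η a; ext u; simp [add_smul]
    obtain rfl | rfl | rfl | rfl : l = 0 ∨ l = 1 ∨ l = 2 ∨ l = 3 := by
      revert l; decide
    · simp only [Function.update_self, Function.update_of_ne h01.symm, Function.update_of_ne h02.symm,
        Function.update_of_ne h03.symm, Prod.fst_add, e1, map_add, LinearMap.add_apply]
    · simp only [Function.update_self, Function.update_of_ne h01, Function.update_of_ne h12.symm,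
        Function.update_of_ne h13.symm, Prod.snd_add, e2, map_add, LinearMap.add_apply]
    · simp only [Function.update_self, Function.update_of_ne h02, Function.update_of_ne h12,
        Function.update_of_ne h23.symm, Prod.fst_add, map_add]
    · simp only [Function.update_self, Function.update_of_ne h03, Function.update_of_ne h13,
        Function.update_of_ne h23, Prod.snd_add, LinearMap.add_apply]
  map_update_smul' := by
    intro inst v l c x
    have hi : inst = instDecidableEqFin 4 := Subsingleton.elim _ _
    subst hi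
    have h01 : (0 : Fin 4) ≠ 1 := by decide
    have h02 : (0 : Fin 4) ≠ 2 := by decide
    have h03 : (0 : Fin 4) ≠ 3 := by decide
    have h12 : (1 : Fin 4) ≠ 2 := by decide
    have h13 : (1 : Fin 4) ≠ 3 := by decide
    have h23 : (2 : Fin 4) ≠ 3 := by decide
    have e1 : ∀ (ξ : Dual k V) (c : k) (b : V), ξ.smulRight (c • b) = c • ξ.smulRight b := by
      intro ξ c b; ext u; simp [smul_smul, mul_comm]
    have e2 : ∀ (ξ : Dual k V) (c : k) (a : V), (c • ξ).smulRight a = c • ξ.smulRight a := by
      intro ξ c a; ext u; simp [smul_smul]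
    obtain rfl | rfl | rfl | rfl : l = 0 ∨ l = 1 ∨ l = 2 ∨ l = 3 := by
      revert l; decide
    · simp only [Function.update_self, Function.update_of_ne h01.symm, Function.update_of_ne h02.symm,
        Function.update_of_ne h03.symm, Prod.smul_fst, e1, map_smul, LinearMap.smul_apply]
    · simp only [Function.update_self, Function.update_of_ne h01, Function.update_of_ne h12.symm,
        Function.update_of_ne h13.symm, Prod.smul_snd, e2, map_smul, LinearMap.smul_apply]
    · simp only [Function.update_self, Function.update_of_ne h02, Function.update_of_ne h12,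
        Function.update_of_ne h23.symm, Prod.smul_fst, map_smul]
    · simp only [Function.update_self, Function.update_of_ne h03, Function.update_of_ne h13,
        Function.update_of_ne h23, Prod.smul_snd, LinearMap.smul_apply]

theorem four_apply (T : End k V →ₗ[k] End k V) (v : Fin 4 → V × Dual k V) :
    four T v = (v 3).2 (T ((v 1).2.smulRight (v 0).1) (v 2).1) := rfl

variable {Γ : Type} [Group Γ] (ρ : Representation k Γ V)

theorem four_tate {T : End k V →ₗ[k] End k V} {Δ : Subgroup Γ} (hΔ : Δ.FiniteIndex)
    (hT : ∀ γ ∈ Δ, ∀ A, T (ρ γ * (A * ρ γ⁻¹)) = ρ γ * (T A * ρ γ⁻¹)) :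
    TateTensor ρ (four T) := by
  refine ⟨Δ, hΔ, fun γ hγ v => ?_⟩
  rw [four_apply, four_apply]
  have h1 : (grp (ρ γ) (ρ γ⁻¹) (v 1)).2.smulRight (grp (ρ γ) (ρ γ⁻¹) (v 0)).1 =
      ρ γ * ((v 1).2.smulRight (v 0).1 * ρ γ⁻¹) := by
    refine LinearMap.ext fun u => ?_
    change ((v 1).2 (ρ γ⁻¹ u)) • (ρ γ (v 0).1) = ρ γ (((v 1).2 (ρ γ⁻¹ u)) • (v 0).1)
    rw [map_smul]
  rw [h1, hT γ hγ]
  change (v 3).2 (ρ γ⁻¹ (ρ γ (T ((v 1).2.smulRight (v 0).1) (ρ γ⁻¹ (ρ γ (v 2).1))))) =
    (v 3).2 (T ((v 1).2.smulRight (v 0).1) (v 2).1)
  have h2 : ∀ x, ρ γ⁻¹ (ρ γ x) = x := fun x => by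
    rw [← Module.End.mul_apply, ← map_mul, inv_mul_cancel, map_one, Module.End.one_apply]
  rw [h2, h2]

/-- An endomorphism which kills the Tate tensors commutes with the linear maps between endomorphism
spaces which commute with the conjugations by a subgroup of finite index. -/
theorem tate_map [FiniteDimensional k V] {X : End k V}
    (hX : ∀ (m : ℕ) (φ : Tensor k V m), TateTensor ρ φ → KillsTensor X φ)
    {T : End k V →ₗ[k] End k V} {Δ : Subgroup Γ} (hΔ : Δ.FiniteIndex)
    (hT : ∀ γ ∈ Δ, ∀ A, T (ρ γ * (A * ρ γ⁻¹)) = ρ γ * (T A * ρ γ⁻¹)) (A : End k V) :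
    T (X * A - A * X) = X * T A - T A * X := by
  have h0 := hX 4 (four T) (four_tate ρ hΔ hT)
  have h1 : ∀ (x : V) (ξ : Dual k V), T (X * ξ.smulRight x - ξ.smulRight x * X) =
      X * T (ξ.smulRight x) - T (ξ.smulRight x) * X := by
    intro x ξ
    refine LinearMap.ext fun y => ?_
    rw [← sub_eq_zero, ← Module.forall_dual_apply_eq_zero_iff k]
    intro η
    have h2 := h0 ![(x, 0), (0, ξ), (y, 0), (0, η)]
    rw [Fin.sum_univ_four] at h2
    simp only [four_apply] at h2
    have h01 : (0 : Fin 4) ≠ 1 := by decide
    have h02 : (0 : Fin 4) ≠ 2 := by decide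
    have h03 : (0 : Fin 4) ≠ 3 := by decide
    have h12 : (1 : Fin 4) ≠ 2 := by decide
    have h13 : (1 : Fin 4) ≠ 3 := by decide
    have h23 : (2 : Fin 4) ≠ 3 := by decide
    simp only [Function.update_self, Function.update_of_ne h01, Function.update_of_ne h02,
      Function.update_of_ne h03, Function.update_of_ne h12, Function.update_of_ne h13,
      Function.update_of_ne h23, Function.update_of_ne h01.symm, Function.update_of_ne h02.symm,
      Function.update_of_ne h03.symm, Function.update_of_ne h12.symm,
      Function.update_of_ne h13.symm, Function.update_of_ne h23.symm] at h2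
    change η (T (ξ.smulRight (X x)) y) + η (T ((-(ξ ∘ₗ X)).smulRight x) y) +
      η (T (ξ.smulRight x) (X y)) + -(η (X (T (ξ.smulRight x) y))) = 0 at h2
    have h3 : ξ.smulRight (X x) = X * ξ.smulRight x := by
      refine LinearMap.ext fun u => ?_
      change ξ u • X x = X (ξ u • x)
      rw [map_smul]
    have h4 : (-(ξ ∘ₗ X)).smulRight x = -(ξ.smulRight x * X) := by
      refine LinearMap.ext fun u => ?_
      change (-(ξ (X u))) • x = -(ξ (X u) • x)
      rw [neg_smul]
    rw [h3, h4, map_neg, LinearMap.neg_apply, map_neg] at h2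
    rw [map_sub T, LinearMap.sub_apply, LinearMap.sub_apply, Module.End.mul_apply X,
      Module.End.mul_apply (T _) X, map_sub, map_sub, map_sub]
    linear_combination h2
  classical
  let b := Module.finBasis k V
  have h2 : A = ∑ i, (b.coord i).smulRight (A (b i)) := by
    refine b.ext fun j => ?_
    rw [LinearMap.sum_apply, Finset.sum_eq_single j]
    · change A (b j) = (b.coord j (b j)) • A (b j)
      rw [Basis.coord_apply, Basis.repr_self, Finsupp.single_eq_same, one_smul]
    · intro i _ hij
      change (b.coord i (b j)) • A (b i) = 0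
      rw [Basis.coord_apply, Basis.repr_self, Finsupp.single_eq_of_ne (by tauto), zero_smul]
    · intro h
      exact absurd (Finset.mem_univ j) h
  rw [h2, Finset.mul_sum, Finset.sum_mul, ← Finset.sum_sub_distrib, map_sum, map_sum,
    Finset.mul_sum, Finset.sum_mul, ← Finset.sum_sub_distrib]
  exact Finset.sum_congr rfl fun i _ => h1 _ _

end Pool.Agent.R913.Adj
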