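import Mathlib

/-!
# Nilpotency from traces, and common kernels of nilpotent Lie algebras
-/

set_option autoImplicit false

namespace Pool.Agent.R913.Adj

open Module

section traces

variable {K : Type} [Field K] [CharZero K] [IsAlgClosed K] {V : Type} [AddCommGroup V] [Module K V]
  [FiniteDimensional K V]

/-- An endomorphism `X` is nilpotent if the trace of its product with all operators that are scalars
`f β` on the generalized eigenspaces of `X`, `f` additive, is zero. -/
theorem nilpotent_of_traces (X : End K V)
    (h : ∀ (f : K →+ K) (s : End K V),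
      (∀ β, ∀ v ∈ X.maxGenEigenspace β, s v = f β • v) → LinearMap.trace K V (X * s) = 0) :
    IsNilpotent X := by
  classical
  have hint : DirectSum.IsInternal fun β : K => X.maxGenEigenspace β :=
    DirectSum.isInternal_submodule_of_iSupIndep_of_iSup_eq_top
      (Module.End.independent_maxGenEigenspace X) (Module.End.iSup_maxGenEigenspace_eq_top X)
  have hfin : {β | X.maxGenEigenspace β ≠ ⊥}.Finite :=
    WellFoundedGT.finite_ne_bot_of_iSupIndep X.independent_maxGenEigenspace
  -- all eigenvalues are zero
  have hev : ∀ β, X.maxGenEigenspace β ≠ ⊥ → β = 0 := by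
    intro β hβ
    by_contra hne
    apply hne
    rw [← Module.forall_dual_apply_eq_zero_iff ℚ β]
    intro φ
    let f : K →+ K := (algebraMap ℚ K).toAddMonoidHom.comp φ.toAddMonoidHom
    have hf : ∀ x, f x = ((φ x : ℚ) : K) := fun x => rfl
    -- the replica
    obtain ⟨s, hs⟩ : ∃ s : End K V, ∀ β, ∀ v ∈ X.maxGenEigenspace β, s v = f β • v := by
      let T : ∀ β : K, X.maxGenEigenspace β →ₗ[K] V := fun β =>
        f β • (X.maxGenEigenspace β).subtype
      let e := LinearEquiv.ofBijective (DirectSum.coeLinearMap fun β : K => X.maxGenEigenspace β) hint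
      refine ⟨(DirectSum.toModule K K V T) ∘ₗ e.symm.toLinearMap, fun β v hv => ?_⟩
      have h1 : e.symm v = DirectSum.lof K K (fun β : K => X.maxGenEigenspace β) β ⟨v, hv⟩ := by
        rw [LinearEquiv.symm_apply_eq]
        change v = DirectSum.coeLinearMap (fun β : K => X.maxGenEigenspace β) _
        rw [DirectSum.coeLinearMap_lof]
      rw [LinearMap.comp_apply, LinearEquiv.coe_coe, h1, DirectSum.toModule_lof]
      rfl
    have h0 := h f s hs
    have hX : ∀ β, Set.MapsTo X (X.maxGenEigenspace β) (X.maxGenEigenspace β) := fun β =>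
      X.mapsTo_maxGenEigenspace_of_comm (Commute.refl _) β
    have hmaps : ∀ β, Set.MapsTo (X * s) (X.maxGenEigenspace β) (X.maxGenEigenspace β) := by
      intro β v hv
      rw [Module.End.mul_apply, hs β v hv, map_smul]
      exact Submodule.smul_mem _ _ (hX β hv)
    have htr : ∀ β, LinearMap.trace K _ ((X * s).restrict (hmaps β)) =
        f β * (β * (finrank K (X.maxGenEigenspace β) : K)) := by
      intro β
      have h1 : (X * s).restrict (hmaps β) = f β • X.restrict (hX β) := by
        refine LinearMap.ext fun v => Subtype.ext ?_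
        change X (s v.1) = f β • X v.1
        rw [hs β v.1 v.2, map_smul]
      have h2 := X.isNilpotent_restrict_maxGenEigenspace_sub_algebraMap β
      have h3 := (LinearMap.isNilpotent_trace_of_isNilpotent h2).eq_zero
      have h4 : (X - algebraMap K (End K V) β).restrict
          (X.mapsTo_maxGenEigenspace_of_comm (Algebra.mul_sub_algebraMap_commutes X β) β) =
          X.restrict (hX β) - β • LinearMap.id := by
        exact LinearMap.ext fun v => Subtype.ext rfl
      rw [h4, map_sub, map_smul, LinearMap.trace_id, sub_eq_zero] at h3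
      rw [h1, map_smul, h3, smul_eq_mul, smul_eq_mul]
    rw [LinearMap.trace_eq_sum_trace_restrict' hint hfin hmaps,
      Finset.sum_congr rfl fun β _ => htr β] at h0
    -- apply `φ`
    have h1 : ∑ β ∈ hfin.toFinset, φ β * φ β * (finrank K (X.maxGenEigenspace β) : ℚ) = 0 := by
      have h2 := congrArg φ h0
      rw [map_zero, map_sum] at h2
      rw [← h2]
      refine Finset.sum_congr rfl fun γ _ => ?_
      have h3 : f γ * (γ * (finrank K (X.maxGenEigenspace γ) : K)) =
          ((φ γ * (finrank K (X.maxGenEigenspace γ) : ℚ)) : ℚ) • γ := by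
        rw [hf, Rat.smul_def]
        push_cast
        ring
      rw [h3, map_smul, smul_eq_mul]
      ring
    have h2 := (Finset.sum_eq_zero_iff_of_nonneg (fun γ _ =>
      mul_nonneg (mul_self_nonneg (φ γ)) (Nat.cast_nonneg _))).1 h1 β (hfin.mem_toFinset.2 hβ)
    have h3 : (finrank K (X.maxGenEigenspace β) : ℚ) ≠ 0 := by
      rw [Nat.cast_ne_zero]
      intro h4
      exact hβ (Submodule.finrank_eq_zero.1 h4)
    exact mul_self_eq_zero.1 ((mul_eq_zero.1 h2).resolve_right h3)
  have htop : X.maxGenEigenspace 0 = ⊤ := by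
    rw [eq_top_iff, ← Module.End.iSup_maxGenEigenspace_eq_top X]
    refine iSup_le fun β => ?_
    by_cases hβ : X.maxGenEigenspace β = ⊥
    · rw [hβ]
      exact bot_le
    · rw [hev β hβ]
  refine ⟨finrank K V, LinearMap.ext fun v => ?_⟩
  have h4 : v ∈ X.genEigenspace 0 (finrank K V) := by
    rw [← Module.End.maxGenEigenspace_eq_genEigenspace_finrank, htop]
    exact Submodule.mem_top
  rw [Module.End.mem_genEigenspace_nat, LinearMap.mem_ker, zero_smul, sub_zero] at h4
  exact h4

end traces

section engel

attribute [local instance 100] LieRing.ofAssociativeRing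

variable {k : Type} [Field k] {V : Type} [AddCommGroup V] [Module k V] [FiniteDimensional k V]

/-- Engel's theorem: a Lie algebra of nilpotent endomorphisms kills a nonzero vector in every nonzero
stable subspace. -/
theorem exists_killed {R : Submodule k (End k V)}
    (hR : ∀ X ∈ R, ∀ Y ∈ R, X * Y - Y * X ∈ R) (hnil : ∀ X ∈ R, IsNilpotent X)
    {U : Submodule k V} (hU : ∀ X ∈ R, ∀ u ∈ U, X u ∈ U) (hne : U ≠ ⊥) :
    ∃ u ∈ U, u ≠ 0 ∧ ∀ X ∈ R, X u = 0 := by
  let R' : LieSubalgebra k (End k V) :=
    { R with
      lie_mem' := fun {X Y} hX hY => hR X hX Y hY }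
  let U' : LieSubmodule k R' V :=
    { U with
      lie_mem := fun {X u} hu => hU X.1 X.2 u hu }
  have hnt : Nontrivial U' := by
    obtain ⟨u, hu, hu0⟩ := (Submodule.ne_bot_iff _).1 hne
    exact ⟨⟨u, hu⟩, 0, fun h => hu0 (congrArg Subtype.val h)⟩
  have hN : LieModule.IsNilpotent R' U' := by
    rw [LieModule.isNilpotent_iff_forall (R := k)]
    intro X
    obtain ⟨n, hn⟩ := hnil X.1 X.2
    refine ⟨n, LinearMap.ext fun u => Subtype.ext ?_⟩
    have h1 : ∀ (m : ℕ) (u : U'), (((LieModule.toEnd k R' U' X) ^ m) u : V) = (X.1 ^ m) u.1 := by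
      intro m
      induction m with
      | zero => intro u; rfl
      | succ m ih =>
        intro u
        rw [pow_succ', pow_succ', Module.End.mul_apply, Module.End.mul_apply, ← ih u]
        rfl
    rw [h1, hn]
    rfl
  have hmt : Nontrivial (LieModule.maxTrivSubmodule k R' U') :=
    LieModule.nontrivial_max_triv_of_isNilpotent k R' U'
  obtain ⟨m, hm⟩ := exists_ne (0 : LieModule.maxTrivSubmodule k R' U')
  refine ⟨m.1.1, m.1.2, fun h => hm (Subtype.ext (Subtype.ext h)), fun X hX => ?_⟩
  have h1 := (LieModule.mem_maxTrivSubmodule k R' U' m.1).1 m.2 ⟨X, hX⟩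
  exact congrArg Subtype.val h1

end engel

end Pool.Agent.R913.Adj
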